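import Pool.Agent.Q211.Thin.TProb

/-!
# MP_6e7106_pr, Question 1: the answer is no

The question asks whether, for bond percolation on finite transitive `d`-regular graphs `G_n`
with `|V_n| → ∞`, the hypothesis that every vertex lies with probability `> δ` in a component of
diameter at least `diam(G_n)/2` forces the existence, with probability tending to one, of a
component with at least `C |V_n|` vertices (`C = C(δ)`).

We disprove this with thin tori `ZMod M × ZMod k`, where `k = n + 6` and `M = M(k)` is the length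
at which the probability of an open crossing drops to `1/2` (so `M` grows exponentially in `k`),
and `p = 599/600`.  Every vertex lies in a component of diameter at least `diam/2` with
probability `> 1/4`, but for every `C > 0` the probability of a component with `C |V|` vertices
stays below a constant `c(C) < 1` for all large `n`.
-/

namespace Pool.Agent.Results.MP_6e7106_pr.ThinTorus

open MeasureTheory Filter Topology

/-- Bernoulli(`p`) bond percolation on the finite graph `G`: the states of the edges are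
independent, each edge is open (`true`) with probability `p`. -/
noncomputable def perc {V : Type} [Finite V] (G : SimpleGraph V) (p : ℝ) :
    Measure (G.edgeSet → Bool) :=
  letI := Fintype.ofFinite G.edgeSet
  Measure.pi (fun _ : G.edgeSet =>
    ENNReal.ofReal p • Measure.dirac true + ENNReal.ofReal (1 - p) • Measure.dirac false)

/-- The graph of open edges. -/
def openGraph {V : Type} (G : SimpleGraph V) (w : G.edgeSet → Bool) : SimpleGraph V where
  Adj u v := ∃ h : s(u, v) ∈ G.edgeSet, w ⟨s(u, v), h⟩ = true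
  symm := ⟨fun u v ⟨h, hw⟩ => by
    have e : s(u, v) = s(v, u) := Sym2.eq_swap
    refine ⟨e ▸ h, ?_⟩
    rw [← hw]
    congr 1
    exact Subtype.ext e.symm⟩
  loopless := ⟨fun u ⟨h, _⟩ => by
    rw [SimpleGraph.mem_edgeSet] at h
    exact G.loopless.irrefl u h⟩

/-- The component (cluster) of `v`. -/
def comp {V : Type} (G : SimpleGraph V) (w : G.edgeSet → Bool) (v : V) : Set V :=
  {u | (openGraph G w).Reachable v u}

/-- The component of `v` has diameter (in the graph metric of `G`) at least `diam(G)/2`. -/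
def LargeDiam {V : Type} (G : SimpleGraph V) (w : G.edgeSet → Bool) (v : V) : Prop :=
  ∃ a ∈ comp G w v, ∃ b ∈ comp G w v, (G.diam : ℝ) / 2 ≤ G.dist a b

/-- Some component has at least `s` vertices. -/
def HasComp {V : Type} (G : SimpleGraph V) (w : G.edgeSet → Bool) (s : ℝ) : Prop :=
  ∃ v, s ≤ ((comp G w v).ncard : ℝ)

/-- Question 1 of the problem. -/
def Q1 : Prop :=
  ∀ (d : ℕ) (V : ℕ → Type) (_ : ∀ n, Finite (V n)) (G : ∀ n, SimpleGraph (V n)),
    (∀ n, (G n).Connected) →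
    (∀ n v, ((G n).neighborSet v).ncard = d) →
    (∀ n u v, ∃ φ : G n ≃g G n, φ u = v) →
    Tendsto (fun n => Nat.card (V n)) atTop atTop →
    ∀ δ : ℝ, 0 < δ → ∃ C : ℝ, 0 < C ∧ ∀ p : ℝ, 0 ≤ p → p ≤ 1 →
      (∀ n v, δ < (perc (G n) p).real {w | LargeDiam (G n) w v}) →
      Tendsto (fun n => (perc (G n) p).real {w | HasComp (G n) w (C * Nat.card (V n))})
        atTop (𝓝 1)

open Pool.Agent.Q211.Thin

section
variable {M k : ℕ}

/-- The edges of the torus. -/
def ed (hM : 2 ≤ M) (hk : 2 ≤ k) (f : ZMod M × ZMod k × Bool) : (TG M k).edgeSet :=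
  match f with
  | (x, y, true) => ⟨s((x, y), (x + 1, y)), adj_right hM (x, y)⟩
  | (x, y, false) => ⟨s((x, y), (x, y + 1)), adj_up hk (x, y)⟩

theorem ed_inj (hM : 3 ≤ M) (hk : 3 ≤ k) :
    Function.Injective (ed (M := M) (k := k) (by omega) (by omega)) := by
  have o1 := one_ne (M := M) (by omega)
  have o2 := one_ne (M := k) (by omega)
  have t1 := two_ne hM
  have t2 := two_ne hk
  rintro ⟨x, y, b⟩ ⟨x', y', b'⟩ h
  have h := congrArg Subtype.val h
  cases b <;> cases b' <;> simp only [ed, Sym2.eq_iff, Prod.mk.injEq] at h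
  · rcases h with ⟨⟨h1, h2⟩, _⟩ | ⟨⟨h1, h2⟩, ⟨h3, h4⟩⟩
    · rw [h1, h2]
    · exfalso
      apply t2
      have : (2 : ZMod k) = y + 1 - y + 1 := by ring
      rw [this, h4, h2]
      ring
  · exfalso
    rcases h with ⟨⟨h1, h2⟩, ⟨h3, h4⟩⟩ | ⟨⟨h1, h2⟩, ⟨h3, h4⟩⟩
    · apply o2
      have : (1 : ZMod k) = y + 1 - y := by ring
      rw [this, h4, h2]
      ring
    · apply o2
      have : (1 : ZMod k) = y + 1 - y := by ring
      rw [this, h4, h2]
      ring
  · exfalso
    rcases h with ⟨⟨h1, h2⟩, ⟨h3, h4⟩⟩ | ⟨⟨h1, h2⟩, ⟨h3, h4⟩⟩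
    · apply o1
      have : (1 : ZMod M) = x + 1 - x := by ring
      rw [this, h3, h1]
      ring
    · apply o1
      have : (1 : ZMod M) = x + 1 - x := by ring
      rw [this, h3, h1]
      ring
  · rcases h with ⟨⟨h1, h2⟩, _⟩ | ⟨⟨h1, h2⟩, ⟨h3, h4⟩⟩
    · rw [h1, h2]
    · exfalso
      apply t1
      have : (2 : ZMod M) = x + 1 - x + 1 := by ring
      rw [this, h3, h1]
      ring

theorem openGraph_eq (hM : 2 ≤ M) (hk : 2 ≤ k) (w : (TG M k).edgeSet → Bool) :
    openGraph (TG M k) w = TO (tc (fun f => w (ed hM hk f))) := by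
  have key : ∀ u v : ZMod M × ZMod k, TStep (tc (fun f => w (ed hM hk f))) u v →
      (openGraph (TG M k) w).Adj u v := by
    rintro ⟨x, y⟩ ⟨x', y'⟩ h
    rcases h with ⟨h1, h2, h3⟩ | ⟨h1, h2, h3⟩
    · simp only at h1 h2
      subst h1 h2
      exact ⟨adj_right hM (x, y), h3⟩
    · simp only at h1 h2
      subst h1 h2
      exact ⟨adj_up hk (x, y), h3⟩
  have key2 : ∀ (u v : ZMod M × ZMod k) (h : s(u, v) ∈ (TG M k).edgeSet),
      w ⟨s(u, v), h⟩ = true → TRel u v → TStep (tc (fun f => w (ed hM hk f))) u v := by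
    rintro ⟨x, y⟩ ⟨x', y'⟩ h hw hr
    rcases hr with ⟨h1, h2⟩ | ⟨h1, h2⟩
    · simp only at h1 h2
      subst h1 h2
      exact Or.inl ⟨rfl, rfl, hw⟩
    · simp only at h1 h2
      subst h1 h2
      exact Or.inr ⟨rfl, rfl, hw⟩
  ext u v
  constructor
  · rintro ⟨h, hw⟩
    have hadj : (TG M k).Adj u v := h
    rw [to_adj]
    rw [tg_adj] at hadj
    refine ⟨hadj.1, ?_⟩
    rcases hadj.2 with hr | hr
    · exact Or.inl (key2 u v h hw hr)
    · right
      have e : s(u, v) = s(v, u) := Sym2.eq_swap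
      refine key2 v u (e ▸ h) ?_ hr
      rw [← hw]
      congr 1
      exact Subtype.ext e.symm
  · intro h
    rw [to_adj] at h
    rcases h.2 with h | h
    · exact key _ _ h
    · exact (key _ _ h).symm

theorem perc_event [NeZero M] [NeZero k] (hM : 3 ≤ M) (hk : 3 ≤ k)
    (A : Set (ZMod M × ZMod k × Bool → Bool)) :
    (perc (TG M k) p0).real {w | (fun f => w (ed (by omega) (by omega) f)) ∈ A} =
      (prodM p0 (ZMod M × ZMod k × Bool)).real A := by
  let _ : Fintype (TG M k).edgeSet := Fintype.ofFinite _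
  exact real_map_inj p0 _ (ed_inj hM hk) A

end

/-! ### Numerical estimates -/

theorem pow_est (k : ℕ) : (1 - p0 ^ k) ^ (2 ^ k) ≤ (2 / 3 : ℝ) ^ k := by
  have hx0 : (0 : ℝ) < p0 ^ k := pow_pos (by norm_num [p0]) _
  have hx1 : p0 ^ k ≤ (1 : ℝ) := pow_le_one₀ (by norm_num [p0]) (by norm_num [p0])
  set x := p0 ^ k with hx
  have h1 : (1 : ℝ) + ((2 ^ k : ℕ) : ℝ) * x ≤ (1 + x) ^ (2 ^ k) :=
    one_add_mul_le_pow (by linarith) _
  have h2 : (1 - x) ^ (2 ^ k) * (1 + x) ^ (2 ^ k) ≤ 1 := by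
    rw [← mul_pow]
    apply pow_le_one₀ <;> nlinarith
  have h3 : (3 / 2 : ℝ) ^ k ≤ ((2 ^ k : ℕ) : ℝ) * x := by
    rw [hx]
    push_cast
    rw [← mul_pow]
    apply pow_le_pow_left₀ <;> norm_num [p0]
  have h4 : 0 ≤ (1 - x) ^ (2 ^ k) := pow_nonneg (by linarith) _
  have h5 : (1 - x) ^ (2 ^ k) * (3 / 2 : ℝ) ^ k ≤ 1 := by
    calc (1 - x) ^ (2 ^ k) * (3 / 2 : ℝ) ^ k ≤ (1 - x) ^ (2 ^ k) * (1 + x) ^ (2 ^ k) :=
          mul_le_mul_of_nonneg_left (by linarith) h4
      _ ≤ 1 := h2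
  have h6 : (2 / 3 : ℝ) ^ k * (3 / 2 : ℝ) ^ k = 1 := by
    rw [← mul_pow]; norm_num
  have h7 : (0 : ℝ) < (3 / 2 : ℝ) ^ k := by positivity
  by_contra hcon
  push Not at hcon
  have := mul_lt_mul_of_pos_right hcon h7
  linarith

theorem hundred (k : ℕ) : ((2 ^ k : ℕ) : ℝ) * (1 / 100 : ℝ) ^ (k / 2 + 1) ≤ (1 / 5) ^ k := by
  have h3 : (1 / 100 : ℝ) ^ (k / 2 + 1) ≤ (1 / 10) ^ k := by
    have : (1 / 100 : ℝ) = (1 / 10) ^ 2 := by norm_num
    rw [this, ← pow_mul]
    apply pow_le_pow_of_le_one <;> try norm_num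
    omega
  calc ((2 ^ k : ℕ) : ℝ) * (1 / 100 : ℝ) ^ (k / 2 + 1) ≤ ((2 ^ k : ℕ) : ℝ) * (1 / 10) ^ k :=
        mul_le_mul_of_nonneg_left h3 (Nat.cast_nonneg _)
    _ = (1 / 5) ^ k := by
      push_cast
      rw [← mul_pow]
      norm_num

section
variable (k : ℕ) [NeZero k]

theorem mm_ge (hk : 6 ≤ k) : 5 * 10 ^ k ≤ mm k := mm_large (by omega)

theorem largeDiam_prob (M : ℕ) (hMdef : M = mm k) [NeZero M] (hk : 6 ≤ k)
    (v : ZMod M × ZMod k) :
    1 / 4 < (perc (TG M k) p0).real {w | LargeDiam (TG M k) w v} := by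
  have hM := mm_ge k hk
  rw [← hMdef] at hM
  have hk10 : k < 10 ^ k := Nat.lt_pow_self (by norm_num)
  have h210 : 2 ^ k ≤ 10 ^ k := Nat.pow_le_pow_left (by norm_num) _
  set R := M / 4 + k with hR
  have hWR : 2 ^ k ≤ R := by omega
  have hRM : R ≤ M := by omega
  have hRM2 : 2 * R ≤ M := by omega
  have hRlt : R < M := by omega
  have hest := torus_reach_prob (M := M) (k := k) (by omega) hWR hRM v
  have hg := gam_lt k (hMdef ▸ hRlt : R < mm k)
  have h1 := hundred k
  have h2 := pow_est k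
  have h3 : (2 / 3 : ℝ) ^ k ≤ (2 / 3) ^ 6 := pow_le_pow_of_le_one (by norm_num) (by norm_num) hk
  have h4 : (1 / 5 : ℝ) ^ k ≤ (1 / 5) ^ 6 := pow_le_pow_of_le_one (by norm_num) (by norm_num) hk
  have hM3 : 3 ≤ M := by omega
  have hk3 : 3 ≤ k := by omega
  have h5 := perc_event (M := M) (k := k) hM3 hk3
    {w | ¬ ∃ j, (Op (win (tc w) v.1 v.2) 0 R).Reachable (0, 0) (R, j)}ᶜ
  have h6 : (prodM p0 (ZMod M × ZMod k × Bool)).real
      {w | ¬ ∃ j, (Op (win (tc w) v.1 v.2) 0 R).Reachable (0, 0) (R, j)}ᶜ > 1 / 4 := by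
    rw [real_compl']
    have h7 : (2 / 3 : ℝ) ^ 6 = 64 / 729 := by norm_num
    have h8 : (1 / 5 : ℝ) ^ 6 = 1 / 15625 := by norm_num
    rw [h7] at h3
    rw [h8] at h4
    linarith
  rw [← h5] at h6
  refine lt_of_lt_of_le h6 ?_
  have hprob : IsProbabilityMeasure (perc (TG M k) p0) := by
    let _ : Fintype (TG M k).edgeSet := Fintype.ofFinite _
    exact prodM_prob p0 _
  apply measureReal_mono _ (measure_ne_top _ _)
  intro w hw
  have hw := not_not.1 hw
  obtain ⟨j, hj⟩ := hw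
  have h9 := to_of_op (by omega) (by omega) _ _ _ _ _ _ hj
  simp only [Nat.cast_zero, add_zero] at h9
  have h10 : (openGraph (TG M k) w).Reachable v (v.1 + (R : ZMod M), v.2 + j) := by
    rw [openGraph_eq (by omega) (by omega)]
    exact h9
  refine ⟨v, SimpleGraph.Reachable.refl _, _, h10, ?_⟩
  have h11 := tg_dist_ge (M := M) (k := k) (by omega) (by omega) v.1 v.2 (v.2 + j) hRM2
  have h12 := tg_diam_le (M := M) (k := k) (by omega) (by omega)
  have h13 : (TG M k).diam ≤ 2 * (TG M k).dist v (v.1 + (R : ZMod M), v.2 + j) := by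
    have : (TG M k).dist (v.1, v.2) (v.1 + (R : ZMod M), v.2 + j) =
      (TG M k).dist v (v.1 + (R : ZMod M), v.2 + j) := rfl
    omega
  have h14 : ((TG M k).diam : ℝ) ≤ 2 * ((TG M k).dist v (v.1 + (R : ZMod M), v.2 + j) : ℝ) := by
    exact_mod_cast h13
  linarith

theorem hasComp_prob (M : ℕ) (hMdef : M = mm k) [NeZero M] (hk : 6 ≤ k) {C : ℝ} (q : ℕ)
    (hq4 : 4 ≤ q)
    (hqC : 4 < C * q) (hqk : q ≤ k) (hsmall : 4 * q * (2 / 3 : ℝ) ^ k ≤ 1 / 4) :
    (perc (TG M k) p0).real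
      {w | HasComp (TG M k) w (C * Nat.card (ZMod M × ZMod k))} ≤
      1 - (1 / (4 * (4 * q + 1)) : ℝ) ^ (2 * q) := by
  have hM := mm_ge k hk
  rw [← hMdef] at hM
  set W := 2 ^ k with hW
  set L := M / q with hLdef
  have h5k : k < 5 ^ k := Nat.lt_pow_self (by norm_num)
  have h10 : 10 ^ k = 5 ^ k * 2 ^ k := by
    rw [← Nat.mul_pow]
  have hW1 : 1 ≤ W := Nat.one_le_two_pow
  have hqW : q * W ≤ 10 ^ k := by
    rw [h10]
    exact Nat.mul_le_mul_right _ (by omega)
  have hL2 : 2 * W ≤ L := by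
    rw [hLdef, Nat.le_div_iff_mul_le (by omega)]
    calc 2 * W * q = 2 * (q * W) := by ring
      _ ≤ M := by omega
  have hqL : q * L ≤ M := by rw [mul_comm]; exact Nat.div_mul_le_self M q
  have hMq : M < q * L + q := by
    have := Nat.lt_div_mul_add (a := M) (b := q) (by omega)
    rw [mul_comm q L]
    exact this
  have hqL2 : q ≤ q * L := by
    calc q = q * 1 := by ring
      _ ≤ q * L := Nat.mul_le_mul_left _ (by omega)
  obtain ⟨t, ht⟩ : ∃ t, L = t + W := ⟨L - W, by omega⟩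
  have hLt : L ≤ 2 * t := by omega
  have hmN : M ≤ 4 * q * t + L := by
    have h1 : q * L ≤ q * (2 * t) := Nat.mul_le_mul_left _ hLt
    have h2 : q * (2 * t) = 2 * (q * t) := by ring
    have h3 : 4 * q * t = 4 * (q * t) := by ring
    omega
  have hsub := gam_sub (k := k) ht hmN
  have hhalf := gam_mm k
  rw [← hMdef] at hhalf
  have hpe := pow_est k
  have hq0 : (0 : ℝ) ≤ 4 * q := by positivity
  have hgam : (1 / (4 * (4 * q + 1)) : ℝ) ≤ gam k L := by
    have h1 : (((4 * q : ℕ) : ℝ)) * (1 - p0 ^ k) ^ W ≤ 1 / 4 := by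
      push_cast
      calc 4 * (q : ℝ) * (1 - p0 ^ k) ^ W ≤ 4 * q * (2 / 3 : ℝ) ^ k :=
            mul_le_mul_of_nonneg_left hpe hq0
        _ ≤ 1 / 4 := hsmall
    have h2 : (1 / 4 : ℝ) ≤ (4 * q + 1) * gam k L := by
      push_cast at hsub h1
      linarith
    rw [div_le_iff₀ (by positivity)]
    linarith
  have hL1 : 1 ≤ L := by omega
  have hML : M / L < 2 * q := by
    apply Nat.div_lt_of_lt_mul
    have : L * (2 * q) = 2 * (q * L) := by ring
    omega
  have hML4 : 4 ≤ M / L := by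
    have : q ≤ M / L := by
      rw [Nat.le_div_iff_mul_le (by omega)]
      exact hqL
    omega
  have hwalls := walls_prob (M := M) (k := k) hL1
  have hc0 : (0 : ℝ) ≤ 1 / (4 * (4 * q + 1)) := by positivity
  have hc1 : (1 / (4 * (4 * q + 1)) : ℝ) ≤ 1 := by
    rw [div_le_one (by positivity)]
    linarith
  have hlow : (1 / (4 * (4 * q + 1)) : ℝ) ^ (2 * q) ≤ gam k L ^ (M / L) := by
    calc (1 / (4 * (4 * q + 1)) : ℝ) ^ (2 * q) ≤ (1 / (4 * (4 * q + 1)) : ℝ) ^ (M / L) :=
          pow_le_pow_of_le_one hc0 hc1 hML.le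
      _ ≤ gam k L ^ (M / L) := pow_le_pow_left₀ hc0 hgam _
  rw [← hwalls] at hlow
  have hM3 : 3 ≤ M := by omega
  have hk3 : 3 ≤ k := by omega
  have h5 := perc_event (M := M) (k := k) hM3 hk3
    {w | ∀ i < M / L, ¬ Cr (win (tc w) ((i * L : ℕ) : ZMod M) 0) 0 L}ᶜ
  rw [real_compl'] at h5
  have hprob : IsProbabilityMeasure (perc (TG M k) p0) := by
    let _ : Fintype (TG M k).edgeSet := Fintype.ofFinite _
    exact prodM_prob p0 _
  refine le_trans ?_ (le_trans h5.le (by linarith))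
  apply measureReal_mono _ (measure_ne_top _ _)
  rintro w ⟨v, hv⟩ hwall
  have h6 := comp_small hL1 hML4 hwall v
  have h7 : comp (TG M k) w v = {u | (TO (tc (fun f => w (ed (M := M) (k := k) (by omega)
      (by omega) f)))).Reachable v u} := by
    unfold comp
    rw [openGraph_eq (by omega) (by omega)]
  rw [← h7] at h6
  rw [Nat.card_prod, Nat.card_zmod, Nat.card_zmod] at hv
  have h8 : ((comp (TG M k) w v).ncard : ℝ) ≤ 4 * L * k := by exact_mod_cast h6
  have h9 : (q : ℝ) * L ≤ M := by exact_mod_cast hqL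
  have hkpos : (0 : ℝ) < k := by
    have : 0 < k := by omega
    exact_mod_cast this
  have hLpos : (0 : ℝ) < L := by exact_mod_cast hL1
  have hCpos : 0 < C := by
    by_contra hcon
    push Not at hcon
    have : C * q ≤ 0 := mul_nonpos_of_nonpos_of_nonneg hcon (Nat.cast_nonneg _)
    linarith
  push_cast at hv
  have h10 : C * (q * L) * k ≤ 4 * L * k := by
    calc C * (q * L) * k ≤ C * M * k := by
          apply mul_le_mul_of_nonneg_right _ hkpos.le
          exact mul_le_mul_of_nonneg_left h9 hCpos.le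
      _ = C * (M * k) := by ring
      _ ≤ 4 * L * k := hv.trans h8
  have h11 : 4 * L * k < C * (q * L) * k := by
    apply mul_lt_mul_of_pos_right _ hkpos
    calc 4 * (L : ℝ) < (C * q) * L := mul_lt_mul_of_pos_right hqC hLpos
      _ = C * (q * L) := by ring
  linarith

end

/-- The answer to Question 1 is no. -/
theorem result : ¬ Q1 := by
  intro hQ
  have hne : ∀ n, NeZero (mm (n + 6)) := fun n => ⟨by
    have := mm_ge (n + 6) (by omega)
    have : 0 < 10 ^ (n + 6) := by positivity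
    omega⟩
  have hge3 : ∀ n, 3 ≤ mm (n + 6) := by
    intro n
    have := mm_ge (n + 6) (by omega)
    have : 0 < 10 ^ (n + 6) := by positivity
    omega
  obtain ⟨C, hC, h⟩ := hQ 4 (fun n => ZMod (mm (n + 6)) × ZMod (n + 6))
    (fun n => by have := hne n; infer_instance)
    (fun n => TG (mm (n + 6)) (n + 6))
    (fun n => tg_connected (by have := hge3 n; omega) (by omega))
    (fun n v => tg_regular (hge3 n) (by omega) v)
    (fun n u v => tg_transitive u v)
    (by
      apply tendsto_atTop_mono (f := fun n => n) _ tendsto_id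
      intro n
      rw [Nat.card_prod, Nat.card_zmod, Nat.card_zmod]
      have := hge3 n
      nlinarith)
    (1 / 4) (by norm_num)
  have h1 := h p0 (by norm_num [p0]) (by norm_num [p0]) (by
    intro n v
    have := hne n
    exact largeDiam_prob (n + 6) _ rfl (by omega) v)
  -- choose q
  obtain ⟨q0, hq0⟩ := exists_nat_gt (4 / C)
  set q := max 4 q0 with hq
  have hqC : 4 < C * q := by
    have h2 : (q0 : ℝ) ≤ q := by exact_mod_cast le_max_right 4 q0
    have h3 : 4 / C < q := lt_of_lt_of_le hq0 h2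
    rw [div_lt_iff₀ hC] at h3
    linarith
  have hev1 : ∀ᶠ n : ℕ in atTop, 4 * (q : ℝ) * (2 / 3 : ℝ) ^ (n + 6) ≤ 1 / 4 := by
    have h2 : Tendsto (fun n : ℕ => 4 * (q : ℝ) * (2 / 3 : ℝ) ^ (n + 6)) atTop
        (𝓝 (4 * (q : ℝ) * 0)) := by
      apply Tendsto.const_mul
      exact (tendsto_pow_atTop_nhds_zero_of_lt_one (by norm_num) (by norm_num)).comp
        (tendsto_add_atTop_nat 6)
    rw [mul_zero] at h2
    exact h2.eventually (ge_mem_nhds (by norm_num))
  have hev2 : ∀ᶠ n : ℕ in atTop, q ≤ n + 6 := by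
    filter_upwards [eventually_ge_atTop q] with n hn
    omega
  have hc : (1 - (1 / (4 * (4 * q + 1)) : ℝ) ^ (2 * q)) < 1 := by
    have : (0 : ℝ) < (1 / (4 * (4 * q + 1)) : ℝ) ^ (2 * q) := by positivity
    linarith
  have hev3 := h1.eventually (lt_mem_nhds hc)
  obtain ⟨n, hn⟩ := (hev1.and (hev2.and hev3)).exists
  have := hne n
  have h4 := hasComp_prob (n + 6) _ rfl (by omega) (C := C) q (le_max_left _ _) hqC hn.2.1 hn.1
  exact absurd hn.2.2 (not_lt.2 h4)

end Pool.Agent.Results.MP_6e7106_pr.ThinTorus
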